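import Pool.Agent.AE15.Levels

/-!
# Good vertices have many good out-neighbours

If `h` reaches robustly all but `η n` vertices (`Good R κ η X h`), then `h` has at least `kGO κ η * n` out-neighbours
which reach robustly all but `4 η n` vertices (with a smaller threshold `κGO κ η`).
-/

namespace AEF

open Finset AE15
open scoped Classical

variable {V : Type*} {R : V → V → Prop}

theorem Closed_mono {κ κ' : ℝ} {X C : Finset V} (h : κ ≤ κ') (hC : Closed R κ X C) : Closed R κ' X C :=
  fun z hz hz' => (hC z hz hz').trans_le (mul_le_mul_of_nonneg_right h (by positivity))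

theorem Good_mono {κ κ' η η' : ℝ} {X : Finset V} {v : V} (h : κ' ≤ κ) (hη : η ≤ η') (hG : Good R κ η X v) :
    Good R κ' η' X v :=
  fun C hC hn hc => (hG C hC hn (Closed_mono h hc)).trans (mul_le_mul_of_nonneg_right hη (by positivity))

/-- one step backwards: a vertex with many good out-neighbours is good -/
theorem good_step {κ κ' η k : ℝ} (hk : 0 < k) (hκ' : 0 ≤ κ') {X : Finset V} (h1 : κ' + κ' / k ≤ κ) {z : V} {W : Finset V}
    (hWX : W ⊆ nO R X z) (hW : k * X.card ≤ W.card) (hX : 0 < X.card) (hG : ∀ w ∈ W, Good R κ η X w) :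
    Good R κ' (η + κ' / k) X z := by
  intro C hCX hzC hC
  obtain ⟨n, hn⟩ : ∃ n : ℝ, n = (X.card : ℝ) := ⟨_, rfl⟩
  have hn0 : 0 < n := by rw [hn]; exact_mod_cast hX
  rw [← hn] at hW ⊢
  have hWc : 0 < (W.card : ℝ) := lt_of_lt_of_le (by positivity) hW
  have hWC : W ⊆ C := hWX.trans hzC
  have hWne : W.Nonempty := by
    rw [← card_pos]; exact_mod_cast hWc
  -- an out-neighbour with few out-neighbours outside `C`
  have hsum : ∑ w ∈ W, ((nO R (X \ C) w).card : ℝ) ≤ κ' * n * n := by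
    have h2 : ∑ w ∈ W, ((nO R (X \ C) w).card : ℝ) = ∑ u ∈ X \ C, ((nI R W u).card : ℝ) := by
      exact_mod_cast sum_nO_eq_sum_nI W (X \ C)
    rw [h2]
    have h3 : ∑ u ∈ X \ C, ((nI R W u).card : ℝ) ≤ ∑ u ∈ X \ C, (κ' * n) := by
      refine sum_le_sum (fun u hu => ?_)
      rw [mem_sdiff] at hu
      have h4 := hC u hu.1 hu.2
      rw [← hn] at h4
      have h5 : ((nI R W u).card : ℝ) ≤ (nI R C u).card := by exact_mod_cast card_le_card (nI_mono hWC)
      linarith
    rw [sum_const, nsmul_eq_mul] at h3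
    have h6 : ((X \ C).card : ℝ) ≤ n := by rw [hn]; exact_mod_cast card_le_card sdiff_subset
    calc _ ≤ ((X \ C).card : ℝ) * (κ' * n) := h3
      _ ≤ n * (κ' * n) := mul_le_mul_of_nonneg_right h6 (by positivity)
      _ = κ' * n * n := by ring
  obtain ⟨w, hw, hwc⟩ : ∃ w ∈ W, ((nO R (X \ C) w).card : ℝ) ≤ κ' * n / k := by
    by_contra hcon
    push Not at hcon
    have h2 : ∑ w ∈ W, (κ' * n / k) < ∑ w ∈ W, ((nO R (X \ C) w).card : ℝ) := sum_lt_sum_of_nonempty hWne hcon
    rw [sum_const, nsmul_eq_mul] at h2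
    have h3 : k * n * (κ' * n / k) ≤ (W.card : ℝ) * (κ' * n / k) := mul_le_mul_of_nonneg_right hW (by positivity)
    have h4 : k * n * (κ' * n / k) = κ' * n * n := by field_simp
    linarith
  set C' := C ∪ nO R X w with hC'
  have hC'X : C' ⊆ X := union_subset hCX nO_sub
  have hcl : Closed R κ X C' := by
    intro u huX hu
    rw [hC', mem_union, not_or] at hu
    have h2 := hC u huX hu.1
    rw [← hn] at h2 ⊢
    have h3 : nI R C' u ⊆ nI R C u ∪ nO R (X \ C) w := by
      intro a ha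
      rw [mem_nI, hC', mem_union] at ha
      rw [mem_union, mem_nI, mem_nO, mem_sdiff]
      by_cases haC : a ∈ C
      · exact Or.inl ⟨haC, ha.2⟩
      · rcases ha.1 with h | h
        · exact absurd h haC
        · rw [mem_nO] at h
          exact Or.inr ⟨⟨h.1, haC⟩, h.2⟩
    have h4 : ((nI R C' u).card : ℝ) ≤ (nI R C u).card + (nO R (X \ C) w).card := by
      exact_mod_cast (card_le_card h3).trans (card_union_le _ _)
    have h5 : κ' * n / k = κ' / k * n := by ring
    have h6 : (κ' + κ' / k) * n ≤ κ * n := mul_le_mul_of_nonneg_right h1 hn0.le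
    rw [h5] at hwc
    rw [add_mul] at h6
    linarith
  have h2 := hG w hw C' hC'X subset_union_right hcl
  rw [← hn] at h2
  have h3 : X \ C ⊆ (X \ C') ∪ nO R (X \ C) w := by
    intro a ha
    rw [mem_sdiff] at ha
    rw [mem_union, mem_sdiff, mem_nO, mem_sdiff, hC', mem_union, not_or]
    by_cases h : a ∈ nO R X w
    · exact Or.inr ⟨ha, (mem_nO.1 h).2⟩
    · exact Or.inl ⟨ha.1, ha.2, h⟩
  have h4 : ((X \ C).card : ℝ) ≤ (X \ C').card + (nO R (X \ C) w).card := by
    exact_mod_cast (card_le_card h3).trans (card_union_le _ _)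
  have h5 : κ' * n / k = κ' / k * n := by ring
  rw [h5] at hwc
  rw [add_mul]
  linarith

/-- all vertices of the levels over a set of good vertices are good -/
theorem good_levels {κ₀ η₀ k : ℝ} (hκ : 0 < κ₀) (hk : 0 < k) (hk1 : k ≤ 1) {X G : Finset V} (hGX : G ⊆ X)
    (hX : 0 < X.card) (hG : ∀ g ∈ G, Good R κ₀ η₀ X g) (i : ℕ) :
    ∀ z ∈ Lv R X G (k * X.card) i, Good R (κ₀ * (k / 2) ^ i) (η₀ + κ₀ * (1 - (1 / 2) ^ i)) X z := by
  induction i with
  | zero =>
    intro z hz
    simpa using hG z hz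
  | succ i ih =>
    intro z hz
    have hki : (0 : ℝ) < (k / 2) ^ i := by positivity
    have hki' : (k / 2) ^ (i + 1) = (k / 2) ^ i * (k / 2) := pow_succ _ _
    have h12 : ((1 : ℝ) / 2) ^ (i + 1) = (1 / 2) ^ i * (1 / 2) := pow_succ _ _
    have h12p : (0 : ℝ) < (1 / 2) ^ i := by positivity
    have hkle : (k / 2) ^ i ≤ (1 / 2) ^ i := pow_le_pow_left₀ (by positivity) (by linarith) i
    have hz' : z ∈ G ∨ (z ∈ X ∧ k * X.card ≤ ((nO R (Lv R X G (k * X.card) i) z).card : ℝ)) := by
      have h : z ∈ G ∪ X.filter (fun z => k * X.card ≤ ((nO R (Lv R X G (k * X.card) i) z).card : ℝ)) := hz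
      rw [mem_union, mem_filter] at h
      exact h
    rcases hz' with h | ⟨hzX, hz2⟩
    · refine Good_mono ?_ ?_ (hG z h)
      · have : (k / 2) ^ (i + 1) ≤ 1 := pow_le_one₀ (by positivity) (by linarith)
        nlinarith
      · have : ((1 : ℝ) / 2) ^ (i + 1) ≤ 1 := pow_le_one₀ (by positivity) (by norm_num)
        nlinarith
    · have h1 := good_step (R := R) (κ := κ₀ * (k / 2) ^ i) (κ' := κ₀ * (k / 2) ^ (i + 1)) (η := η₀ + κ₀ * (1 - (1 / 2) ^ i))
        hk (by positivity) (X := X) ?_ (z := z) (W := nO R (Lv R X G (k * X.card) i) z) ?_ hz2 hX ?_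
      · refine Good_mono le_rfl ?_ h1
        have h2 : κ₀ * (k / 2) ^ (i + 1) / k = κ₀ * (k / 2) ^ i / 2 := by
          rw [hki']; field_simp
        rw [h2, h12]
        nlinarith
      · have h2 : κ₀ * (k / 2) ^ (i + 1) / k = κ₀ * (k / 2) ^ i / 2 := by
          rw [hki']; field_simp
        rw [h2, hki']
        have : κ₀ * ((k / 2) ^ i * (k / 2)) ≤ κ₀ * ((k / 2) ^ i * (1 / 2)) := by
          apply mul_le_mul_of_nonneg_left _ hκ.le
          apply mul_le_mul_of_nonneg_left _ hki.le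
          linarith
        linarith
      · exact nO_mono (Lv_sub hGX i)
      · intro w hw
        exact ih w (mem_nO.1 hw).1

/-- number of good out-neighbours (as a proportion) -/
noncomputable def kGO (κ η : ℝ) : ℝ := η * κ ^ 2 / 64

/-- threshold of the good out-neighbours -/
noncomputable def κGO (κ η : ℝ) : ℝ := η ^ 2 / 1600 * (kGO κ η / 2) ^ ⌈1 / kGO κ η⌉₊

theorem kGO_pos {κ η : ℝ} (hκ : 0 < κ) (hη : 0 < η) : 0 < kGO κ η := by unfold kGO; positivity

theorem κGO_pos {κ η : ℝ} (hκ : 0 < κ) (hη : 0 < η) : 0 < κGO κ η := by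
  have := kGO_pos hκ hη
  unfold κGO; positivity

/-- **good vertices have many good out-neighbours** -/
theorem good_out (hT : AE32.Tour R) {κ η : ℝ} (hκ : 0 < κ) (hκ1 : κ ≤ 1) (hη : 0 < η) (hη1 : η ≤ 1 / 2) {X : Finset V}
    (hn : 20 ≤ η * X.card) {h : V} (hG : Good R κ η X h) :
    kGO κ η * X.card ≤ (((nO R X h).filter (fun w => Good R (κGO κ η) (4 * η) X w)).card : ℝ) := by
  obtain ⟨n, hnd⟩ : ∃ n : ℝ, n = (X.card : ℝ) := ⟨_, rfl⟩
  have hn0 : 0 < n := by
    rw [hnd]
    have h1 : (0 : ℝ) ≤ X.card := by positivity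
    rcases h1.eq_or_lt with h2 | h2
    · rw [← h2] at hn; norm_num at hn
    · exact h2
  have hX : 0 < X.card := by
    have : (0 : ℝ) < X.card := by rw [← hnd]; exact hn0
    exact_mod_cast this
  set k := kGO κ η with hkd
  have hk : 0 < k := kGO_pos hκ hη
  have hkκ : κ ^ 2 ≤ κ := by nlinarith
  have hk1 : k ≤ η * κ / 64 := by
    rw [hkd, kGO]
    have : η * κ ^ 2 ≤ η * κ := mul_le_mul_of_nonneg_left hkκ hη.le
    linarith
  have hηκ : η * κ ≤ κ := by nlinarith
  have hηκ' : η * κ ≤ η := by nlinarith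
  have hk1' : k ≤ 1 := by linarith
  obtain ⟨G, hGX, hGc, hGg, -⟩ := structure_lemma hT X (η := 2 * η) (κ₀ := η / 20) (by positivity) (by linarith)
    (by linarith) (by linarith)
  rw [← hnd] at hGc hn
  have hGc' : 7 / 4 * η * n ≤ G.card := by
    have : (2 * η - 5 * (η / 20)) * n = 7 / 4 * η * n := by ring
    linarith
  have hne : G.Nonempty := by
    rw [← card_pos]
    have : (0 : ℝ) < G.card := lt_of_lt_of_le (by positivity) hGc'
    exact_mod_cast this
  obtain ⟨m, hm, hstep⟩ := exists_small_step (R := R) (k := k * X.card) (θ := k) hGX hne (M := ⌈1 / k⌉₊)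
    (by
      have h1 : 1 / k ≤ (⌈1 / k⌉₊ : ℝ) := Nat.le_ceil _
      calc (1 : ℝ) = k * (1 / k) := by field_simp
        _ ≤ k * ⌈1 / k⌉₊ := mul_le_mul_of_nonneg_left h1 hk.le)
  set Y := Lv R X G (k * X.card) m with hY
  set Y' := Lv R X G (k * X.card) (m + 1) with hY'
  have hYX : Y ⊆ X := Lv_sub hGX m
  have hY'X : Y' ⊆ X := Lv_sub hGX (m + 1)
  have hYY : Y ⊆ Y' := Lv_mono m
  have hGY : G ⊆ Y := sub_Lv m
  -- it is enough to find many out-neighbours in `Y`
  suffices hkey : k * X.card ≤ ((nO R Y h).card : ℝ) by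
    refine hkey.trans ?_
    have : nO R Y h ⊆ (nO R X h).filter (fun w => Good R (κGO κ η) (4 * η) X w) := by
      intro w hw
      rw [mem_nO] at hw
      rw [mem_filter, mem_nO]
      refine ⟨⟨hYX hw.1, hw.2⟩, ?_⟩
      have h1 := good_levels (κ₀ := (η / 20) ^ 2 / 4) (η₀ := 2 * η) (by positivity) hk hk1' hGX hX hGg m w hw.1
      refine Good_mono ?_ ?_ h1
      · rw [κGO, ← hkd]
        have h2 : (k / 2) ^ ⌈1 / k⌉₊ ≤ (k / 2) ^ m := pow_le_pow_of_le_one (by positivity) (by linarith) hm.le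
        have h3 : (η / 20) ^ 2 / 4 = η ^ 2 / 1600 := by ring
        rw [h3]
        exact mul_le_mul_of_nonneg_left h2 (by positivity)
      · have h2 : (0 : ℝ) < (1 / 2) ^ m := by positivity
        have h3 : (η / 20) ^ 2 / 4 ≤ η := by nlinarith
        have h4 : (0 : ℝ) ≤ (η / 20) ^ 2 / 4 := by positivity
        nlinarith
    exact_mod_cast card_le_card this
  by_contra hcon
  push Not at hcon
  rw [← hnd] at hcon hstep
  -- few vertices of `Y` have many in-neighbours outside `Y`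
  have hout : ∀ z ∈ X, z ∉ Y' → ((nO R Y z).card : ℝ) < k * n := by
    intro z hz hz'
    by_contra h1
    push Not at h1
    rw [hnd] at h1
    exact hz' (mem_union_right _ (mem_filter.2 ⟨hz, h1⟩))
  set S := Y.filter (fun z => κ / 2 * n ≤ ((nI R (X \ Y) z).card : ℝ)) with hS
  have hSY : S ⊆ Y := filter_subset _ _
  have hSc : (S.card : ℝ) ≤ η * κ / 16 * n := by
    have h1 : ∑ z ∈ S, ((nI R (X \ Y) z).card : ℝ) = ∑ z ∈ X \ Y, ((nO R S z).card : ℝ) := by
      exact_mod_cast (sum_nO_eq_sum_nI (X \ Y) S).symm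
    have h2 : (S.card : ℝ) * (κ / 2 * n) ≤ ∑ z ∈ S, ((nI R (X \ Y) z).card : ℝ) := by
      rw [← nsmul_eq_mul]
      exact card_nsmul_le_sum _ _ _ (fun z hz => (mem_filter.1 hz).2)
    have h3 : ∑ z ∈ X \ Y, ((nO R S z).card : ℝ) ≤ 2 * k * n * n := by
      have h4 : X \ Y = (X \ Y') ∪ (Y' \ Y) := by
        ext a
        simp only [mem_sdiff, mem_union]
        constructor
        · rintro ⟨h1, h2⟩
          by_cases h3 : a ∈ Y'
          · exact Or.inr ⟨h3, h2⟩
          · exact Or.inl ⟨h1, h3⟩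
        · rintro (⟨h1, h2⟩ | ⟨h1, h2⟩)
          · exact ⟨h1, fun h => h2 (hYY h)⟩
          · exact ⟨hY'X h1, h2⟩
      have h5 : Disjoint (X \ Y') (Y' \ Y) := by
        rw [disjoint_left]
        intro a ha ha'
        exact (mem_sdiff.1 ha).2 (mem_sdiff.1 ha').1
      rw [h4, sum_union h5]
      have h6 : ∑ z ∈ X \ Y', ((nO R S z).card : ℝ) ≤ n * (k * n) := by
        have h7 : ∑ z ∈ X \ Y', ((nO R S z).card : ℝ) ≤ ∑ z ∈ X \ Y', (k * n) := by
          refine sum_le_sum (fun z hz => ?_)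
          rw [mem_sdiff] at hz
          have h8 := hout z hz.1 hz.2
          have h9 : ((nO R S z).card : ℝ) ≤ (nO R Y z).card := by exact_mod_cast card_le_card (nO_mono hSY)
          linarith
        rw [sum_const, nsmul_eq_mul] at h7
        have h8 : ((X \ Y').card : ℝ) ≤ n := by rw [hnd]; exact_mod_cast card_le_card sdiff_subset
        exact h7.trans (mul_le_mul_of_nonneg_right h8 (by positivity))
      have h7 : ∑ z ∈ Y' \ Y, ((nO R S z).card : ℝ) ≤ (k * n) * n := by
        have h8 : ∑ z ∈ Y' \ Y, ((nO R S z).card : ℝ) ≤ ∑ z ∈ Y' \ Y, n := by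
          refine sum_le_sum (fun z _ => ?_)
          rw [hnd]
          exact_mod_cast card_le_card (nO_sub.trans (hSY.trans hYX))
        rw [sum_const, nsmul_eq_mul] at h8
        exact h8.trans (mul_le_mul_of_nonneg_right hstep.le hn0.le)
      nlinarith
    have h4 : (S.card : ℝ) * (κ / 2 * n) ≤ 2 * k * n * n := (h2.trans h1.le).trans h3
    have h5 : 2 * k * n * n = (η * κ / 16 * n) * (κ / 2 * n) := by
      rw [hkd, kGO]; ring
    rw [h5] at h4
    exact le_of_mul_le_mul_right h4 (by positivity)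
  -- the closed set
  set C := X \ (Y \ (nO R Y h ∪ S)) with hC
  have hCX : C ⊆ X := sdiff_subset
  have hnC : nO R X h ⊆ C := by
    intro w hw
    rw [mem_nO] at hw
    rw [hC, mem_sdiff, mem_sdiff, not_and, not_not, mem_union]
    exact ⟨hw.1, fun hwY => Or.inl (mem_nO.2 ⟨hwY, hw.2⟩)⟩
  have hcl : Closed R κ X C := by
    intro z hz hzC
    have hz' : z ∈ Y ∧ z ∉ nO R Y h ∧ z ∉ S := by
      rw [hC, mem_sdiff, not_and, not_not, mem_sdiff, mem_union, not_or] at hzC
      exact hzC hz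
    have h1 : ((nI R (X \ Y) z).card : ℝ) < κ / 2 * n := by
      by_contra h2
      push Not at h2
      exact hz'.2.2 (mem_filter.2 ⟨hz'.1, h2⟩)
    have h2 : nI R C z ⊆ nI R (X \ Y) z ∪ (nO R Y h ∪ S) := by
      intro a ha
      rw [mem_nI, hC, mem_sdiff, mem_sdiff, not_and, not_not] at ha
      rw [mem_union, mem_nI, mem_sdiff]
      by_cases haY : a ∈ Y
      · exact Or.inr (ha.1.2 haY)
      · exact Or.inl ⟨⟨ha.1.1, haY⟩, ha.2⟩
    have h3 : ((nI R C z).card : ℝ) ≤ (nI R (X \ Y) z).card + ((nO R Y h).card + S.card) := by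
      have h4 := card_le_card h2
      have h5 := card_union_le (nI R (X \ Y) z) (nO R Y h ∪ S)
      have h6 := card_union_le (nO R Y h) S
      exact_mod_cast (by omega : (nI R C z).card ≤ (nI R (X \ Y) z).card + ((nO R Y h).card + S.card))
    rw [← hnd]
    have h4 : k * n ≤ η * κ / 64 * n := mul_le_mul_of_nonneg_right hk1 hn0.le
    have h5 : η * κ * n ≤ κ * n := mul_le_mul_of_nonneg_right hηκ hn0.le
    have h6 : 0 < κ * n := by positivity
    have h7 : η * κ / 64 * n = η * κ * n / 64 := by ring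
    have h8 : η * κ / 16 * n = η * κ * n / 16 := by ring
    have h9 : κ / 2 * n = κ * n / 2 := by ring
    rw [h7] at h4
    rw [h8] at hSc
    rw [h9] at h1
    linarith
  have h1 := hG C hCX hnC hcl
  rw [← hnd] at h1
  have h2 : G ⊆ (X \ C) ∪ (nO R Y h ∪ S) := by
    intro g hg
    rw [mem_union]
    by_cases h3 : g ∈ nO R Y h ∪ S
    · exact Or.inr h3
    · left
      rw [mem_sdiff]
      refine ⟨hGX hg, fun h4 => ?_⟩
      rw [hC, mem_sdiff] at h4
      exact h4.2 (mem_sdiff.2 ⟨hGY hg, h3⟩)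
  have h3 : (G.card : ℝ) ≤ (X \ C).card + ((nO R Y h).card + S.card) := by
    have h4 := card_le_card h2
    have h5 := card_union_le (X \ C) (nO R Y h ∪ S)
    have h6 := card_union_le (nO R Y h) S
    exact_mod_cast (by omega : G.card ≤ (X \ C).card + ((nO R Y h).card + S.card))
  have h4 : k * n ≤ η * κ / 64 * n := mul_le_mul_of_nonneg_right hk1 hn0.le
  have h5 : η * κ * n ≤ η * n := mul_le_mul_of_nonneg_right hηκ' hn0.le
  have h6 : 0 < η * n := by positivity
  have h7 : η * κ / 64 * n = η * κ * n / 64 := by ring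
  have h8 : η * κ / 16 * n = η * κ * n / 16 := by ring
  rw [h7] at h4
  rw [h8] at hSc
  nlinarith

end AEF
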