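import Pool.Agent.AEF.PiecesG

/-!
# Representative pieces; every member of a graded family is kept
-/

set_option autoImplicit false

namespace Pool.Agent.AEF

open Finset _root_.AE15
open scoped Classical

/-- small changes of a representative set -/
theorem rep_change {V : Type*} {A P P' : Finset V} {𝓕 : Finset (Finset V)} {ε : ℝ} (hε : 0 < ε)
    (h : Rep A 𝓕 (ε / 2) P) {r : ℕ} (h1 : (P \ P').card ≤ r) (h2 : (P' \ P).card ≤ r) (hr : 2 * (r : ℝ) ≤ ε / 2 * P.card) :
    Rep A 𝓕 ε P' := by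
  intro F hF
  have h3 := h F hF
  have h0 : (0 : ℝ) ≤ ((F ∩ A).card : ℝ) / A.card := by positivity
  have ha1 : ((F ∩ A).card : ℝ) / A.card ≤ 1 := by
    rcases Nat.eq_zero_or_pos A.card with h | h
    · rw [h]; simp
    · rw [div_le_one (by exact_mod_cast h)]
      exact_mod_cast card_le_card inter_subset_right
  set a := ((F ∩ A).card : ℝ) / A.card with ha
  have h4 : ((F ∩ P).card : ℝ) ≤ (F ∩ P').card + r := by
    have h5 : F ∩ P ⊆ (F ∩ P') ∪ (P \ P') := by
      intro w hw
      rw [mem_inter] at hw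
      by_cases hw' : w ∈ P'
      · exact mem_union_left _ (mem_inter.2 ⟨hw.1, hw'⟩)
      · exact mem_union_right _ (mem_sdiff.2 ⟨hw.2, hw'⟩)
    have h6 := (card_le_card h5).trans (card_union_le _ _)
    exact_mod_cast (by omega : (F ∩ P).card ≤ (F ∩ P').card + r)
  have h5 : (P'.card : ℝ) ≤ P.card + r := by
    have h6 : P' ⊆ P ∪ (P' \ P) := by
      intro w hw
      by_cases hw' : w ∈ P
      · exact mem_union_left _ hw'
      · exact mem_union_right _ (mem_sdiff.2 ⟨hw, hw'⟩)
    have h7 := (card_le_card h6).trans (card_union_le _ _)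
    exact_mod_cast (by omega : P'.card ≤ P.card + r)
  have hr0 : (0 : ℝ) ≤ r := by positivity
  have hP0 : (0 : ℝ) ≤ P.card := by positivity
  have hP0' : (0 : ℝ) ≤ P'.card := by positivity
  rcases le_or_gt a ε with hae | hae
  · have h6 : (a - ε) * P'.card ≤ 0 := mul_nonpos_of_nonpos_of_nonneg (by linarith) hP0'
    have h7 : (0 : ℝ) ≤ (F ∩ P').card := by positivity
    linarith
  · have h6 : (a - ε) * P'.card ≤ (a - ε) * (P.card + r) := mul_le_mul_of_nonneg_left h5 (by linarith)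
    have h7 : (a - ε) * r ≤ 1 * r := mul_le_mul_of_nonneg_right (by linarith) hr0
    have h8 : (a - ε) * (P.card + r) = (a - ε / 2) * P.card - ε / 2 * P.card + (a - ε) * r := by ring
    linarith

/-- **Pieces; every member of a graded family is kept.** `D u`: dominators; `I v`: capacities. -/
theorem exists_pieces_keep {ε c : ℝ} (hε : 0 < ε) (hε1 : ε ≤ 1) (hc : 0 < c) (m Kg : ℕ) :
    ∃ n₁ M₉ c₉ : ℕ, 1 ≤ M₉ ∧
    ∀ {V : Type} (A : Finset V) (𝓕 : Finset (Finset V)), n₁ ≤ A.card → 𝓕.card ≤ A.card ^ 5 →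
      ∀ {ι : Type} (G : Finset ι) (D : ι → Finset V), (∀ u ∈ G, D u ⊆ A) → (∀ u ∈ G, (D u).Nonempty) → Graded G D Kg →
      ∀ (S : Finset V) (I : V → Finset V), (∀ v ∈ S, I v ⊆ A) → Graded S I Kg →
      ∀ (r : ℕ) (s : Fin r → ℝ), r ≤ m → (∀ i, 0 ≤ s i) → ∑ i, s i ≤ (1 - 3 * c) * A.card →
        ∃ (P : Fin r → Finset V) (Q : Finset V), (∀ i, P i ⊆ A) ∧ (∀ i, (P i).Nonempty) ∧
          (∀ i j, i ≠ j → Disjoint (P i) (P j)) ∧ (∀ i, Disjoint (P i) Q) ∧ Q ⊆ A ∧
          (∀ i, s i ≤ (P i).card) ∧ (∀ i, Rep A 𝓕 ε (P i)) ∧ c * A.card ≤ Q.card ∧ Rep A 𝓕 ε Q ∧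
          (∀ u ∈ G, (D u ∩ Q).Nonempty ∧ (D u).card ≤ M₉ * (D u ∩ Q).card) ∧
          (∀ v ∈ S, c₉ ≤ (I v).card → (I v).card ≤ M₉ * (I v ∩ Q).card ∧
            ∀ i, (I v).card ≤ M₉ * (I v ∩ P i).card) := by
  obtain ⟨n1, M, c9, hmain⟩ := exists_pieces_graded (ε := ε / 2) (c := c) (by positivity) (by linarith) hc m (2 * Kg)
  obtain ⟨r0, hr0⟩ : ∃ r0 : ℕ, r0 = Kg * (c9 + 1) := ⟨_, rfl⟩
  obtain ⟨δ, hδ⟩ : ∃ δ : ℝ, δ = c / (m + 1) := ⟨_, rfl⟩
  have hδ0 : 0 < δ := by rw [hδ]; positivity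
  have hδc : δ ≤ c := by
    rw [hδ, div_le_iff₀ (by positivity)]
    have : 0 ≤ c * m := by positivity
    linarith
  obtain ⟨n2, hn2⟩ := exists_nat_ge ((4 * (r0 : ℝ) + 1) / (ε * δ))
  refine ⟨max n1 n2, max (2 * M) (c9 + 1), max c9 (2 * M * r0), ?_, ?_⟩
  · exact le_trans (by omega) (le_max_right _ _)
  intro V A 𝓕 hA h𝓕 ι G D hD hDne hGD S I hI hSI r s hr hs hsum
  obtain ⟨n, hnd⟩ : ∃ n : ℝ, n = (A.card : ℝ) := ⟨_, rfl⟩
  rw [← hnd] at hsum
  have hn1 : n1 ≤ A.card := (le_max_left _ _).trans hA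
  have hnn2 : (n2 : ℝ) ≤ n := by rw [hnd]; exact_mod_cast (le_max_right _ _).trans hA
  have hn0 : 0 ≤ n := by rw [hnd]; positivity
  have hbig : 4 * (r0 : ℝ) + 1 ≤ ε * (δ * n) := by
    have h1 := hn2.trans hnn2
    rw [div_le_iff₀ (by positivity)] at h1
    linarith
  have hr00 : (0 : ℝ) ≤ r0 := by positivity
  have hr1 : (r0 : ℝ) ≤ δ * n := by
    have h1 : ε * (δ * n) ≤ 1 * (δ * n) := mul_le_mul_of_nonneg_right hε1 (by positivity)
    linarith
  -- the family on the sum type
  obtain ⟨P, Q, p1, p2, p3, p4, p5, p6, p7, p8, p9, p10, p11⟩ := hmain A 𝓕 hn1 h𝓕 (G.disjSum S)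
    (Sum.elim D I) (by
      intro u hu
      rcases mem_disjSum.1 hu with ⟨x, hx, rfl⟩ | ⟨x, hx, rfl⟩
      · exact hD x hx
      · exact hI x hx) (by
      intro j
      have h1 : (G.disjSum S).filter (fun u => (Sum.elim D I u).card ≤ j) =
          (G.filter (fun u => (D u).card ≤ j)).disjSum (S.filter (fun u => (I u).card ≤ j)) := by
        ext u
        rw [mem_filter, mem_disjSum, mem_disjSum]
        constructor
        · rintro ⟨⟨x, hx, rfl⟩ | ⟨x, hx, rfl⟩, h⟩
          · exact Or.inl ⟨x, mem_filter.2 ⟨hx, h⟩, rfl⟩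
          · exact Or.inr ⟨x, mem_filter.2 ⟨hx, h⟩, rfl⟩
        · rintro (⟨x, hx, rfl⟩ | ⟨x, hx, rfl⟩)
          · exact ⟨Or.inl ⟨x, (mem_filter.1 hx).1, rfl⟩, (mem_filter.1 hx).2⟩
          · exact ⟨Or.inr ⟨x, (mem_filter.1 hx).1, rfl⟩, (mem_filter.1 hx).2⟩
      rw [h1, card_disjSum]
      have h2 := hGD j
      have h3 := hSI j
      have h4 : 2 * Kg * (j + 1) = Kg * (j + 1) + Kg * (j + 1) := by ring
      omega) r (fun i => s i + δ * n) hr (fun i => by have := hs i; positivity) (by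
      rw [sum_add_distrib, sum_const, card_univ, Fintype.card_fin, nsmul_eq_mul, ← hnd]
      have h1 : (r : ℝ) * (δ * n) ≤ c * n := by
        have h2 : (r : ℝ) ≤ m + 1 := by
          have : (r : ℝ) ≤ m := by exact_mod_cast hr
          linarith
        have h3 : (r : ℝ) * (δ * n) ≤ (m + 1) * (δ * n) := mul_le_mul_of_nonneg_right h2 (by positivity)
        have h4 : ((m : ℝ) + 1) * (δ * n) = c * n := by rw [hδ]; field_simp
        linarith
      linarith)
  rw [← hnd] at p8
  -- the vertices put back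
  have hch : ∀ u : ι, ∃ v : V, u ∈ G → v ∈ D u := by
    intro u
    by_cases hu : u ∈ G
    · obtain ⟨v, hv⟩ := hDne u hu
      exact ⟨v, fun _ => hv⟩
    · by_cases hV : Nonempty V
      · exact ⟨hV.some, fun h => absurd h hu⟩
      · rcases G.eq_empty_or_nonempty with h | ⟨w, hw⟩
        · exfalso
          apply hV
          have : A.Nonempty := by
            rw [← card_pos]
            have h5 : (0 : ℝ) < n := by
              by_contra hc'
              have h6 : n = 0 := le_antisymm (not_lt.1 hc') hn0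
              rw [h6] at hbig
              linarith
            rw [hnd] at h5
            exact_mod_cast h5
          exact ⟨this.choose⟩
        · exact absurd ⟨(hDne w hw).choose⟩ hV
  choose v hv using hch
  set Res : Finset V := (G.filter (fun u => (D u).card ≤ c9)).image v with hRes
  have hRc : Res.card ≤ r0 := by
    rw [hr0]
    exact card_image_le.trans (hGD c9)
  have hRA : Res ⊆ A := by
    intro w hw
    rw [hRes, mem_image] at hw
    obtain ⟨u, hu, rfl⟩ := hw
    have hu' := (mem_filter.1 hu).1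
    exact hD u hu' (hv u hu')
  have hPbig : ∀ i, s i + δ * n ≤ (P i).card := p6
  have hPδ : ∀ i, δ * n ≤ (P i).card := fun i => by
    have := hs i
    have := hPbig i
    linarith
  have hQδ : δ * n ≤ (Q.card : ℝ) := by
    have : δ * n ≤ c * n := mul_le_mul_of_nonneg_right hδc hn0
    linarith
  have hRP : ∀ i, (P i ∩ Res).card ≤ r0 := fun i => (card_le_card inter_subset_right).trans hRc
  have hcard : ∀ i, ((P i).card : ℝ) ≤ (P i \ Res).card + r0 := by
    intro i
    have h1 : (P i \ Res).card + (P i ∩ Res).card = (P i).card := card_sdiff_add_card_inter _ _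
    have h2 := hRP i
    exact_mod_cast (by omega : (P i).card ≤ (P i \ Res).card + r0)
  refine ⟨fun i => P i \ Res, Q ∪ Res, fun i => sdiff_subset.trans (p1 i), ?_, ?_, ?_, union_subset p5 hRA, ?_, ?_, ?_, ?_,
    ?_, ?_⟩
  · intro i
    rw [← card_pos]
    have h1 := hcard i
    have h2 := hPδ i
    have h3 : (0 : ℝ) < (P i \ Res).card := by
      have h4 : ε * (δ * n) ≤ 1 * (δ * n) := mul_le_mul_of_nonneg_right hε1 (by positivity)
      linarith
    exact_mod_cast h3
  · intro i j hij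
    exact (p3 i j hij).mono sdiff_subset sdiff_subset
  · intro i
    rw [disjoint_union_right]
    exact ⟨(p4 i).mono_left sdiff_subset, sdiff_disjoint⟩
  · intro i
    have h1 := hcard i
    have h2 := hPbig i
    linarith
  · intro i
    refine rep_change hε (p7 i) (r := r0) ?_ ?_ ?_
    · refine (card_le_card ?_).trans hRc
      intro w hw
      rw [mem_sdiff, mem_sdiff, not_and, not_not] at hw
      exact hw.2 hw.1
    · have : (P i \ Res) \ P i = ∅ := by
        rw [sdiff_eq_empty_iff_subset]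
        exact sdiff_subset
      rw [this]
      simp
    · have h1 : ε * (δ * n) ≤ ε * (P i).card := mul_le_mul_of_nonneg_left (hPδ i) hε.le
      linarith
  · have h1 : (Q.card : ℝ) ≤ (Q ∪ Res).card := by exact_mod_cast card_le_card subset_union_left
    rw [← hnd]
    linarith
  · refine rep_change hε p9 (r := r0) ?_ ?_ ?_
    · have : Q \ (Q ∪ Res) = ∅ := by
        rw [sdiff_eq_empty_iff_subset]
        exact subset_union_left
      rw [this]
      simp
    · refine (card_le_card ?_).trans hRc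
      intro w hw
      rw [mem_sdiff, mem_union] at hw
      exact hw.1.resolve_left hw.2
    · have h1 : ε * (δ * n) ≤ ε * Q.card := mul_le_mul_of_nonneg_left hQδ hε.le
      linarith
  · intro u hu
    by_cases h9 : (D u).card ≤ c9
    · have h1 : v u ∈ D u ∩ (Q ∪ Res) := by
        rw [mem_inter, mem_union]
        exact ⟨hv u hu, Or.inr (mem_image.2 ⟨u, mem_filter.2 ⟨hu, h9⟩, rfl⟩)⟩
      refine ⟨⟨_, h1⟩, ?_⟩
      have h2 : 1 ≤ (D u ∩ (Q ∪ Res)).card := card_pos.2 ⟨_, h1⟩
      calc (D u).card ≤ c9 + 1 := by omega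
        _ ≤ max (2 * M) (c9 + 1) := le_max_right _ _
        _ = max (2 * M) (c9 + 1) * 1 := (mul_one _).symm
        _ ≤ max (2 * M) (c9 + 1) * (D u ∩ (Q ∪ Res)).card := Nat.mul_le_mul_left _ h2
    · push Not at h9
      have h1 := p10 (Sum.inl u) (mem_disjSum.2 (Or.inl ⟨u, hu, rfl⟩)) h9.le
      have h1' : (D u).card ≤ M * (D u ∩ Q).card := h1
      have h2 : (D u ∩ Q).card ≤ (D u ∩ (Q ∪ Res)).card := card_le_card (inter_subset_inter_left subset_union_left)
      have h3 : (D u).card ≤ max (2 * M) (c9 + 1) * (D u ∩ (Q ∪ Res)).card :=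
        h1'.trans (Nat.mul_le_mul (le_trans (by omega) (le_max_left _ _)) h2)
      refine ⟨?_, h3⟩
      rw [← card_pos]
      by_contra hc'
      have h4 : (D u ∩ (Q ∪ Res)).card = 0 := by omega
      rw [h4, mul_zero] at h3
      omega
  · intro w hw h9
    have h9' : c9 ≤ (I w).card := (le_max_left _ _).trans h9
    have h9'' : 2 * M * r0 ≤ (I w).card := (le_max_right _ _).trans h9
    have hmem : (Sum.inr w : ι ⊕ V) ∈ G.disjSum S := mem_disjSum.2 (Or.inr ⟨w, hw, rfl⟩)
    have h1 : (I w).card ≤ M * (I w ∩ Q).card := p10 (Sum.inr w) hmem h9'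
    have h2 : ∀ i, (I w).card ≤ M * (I w ∩ P i).card := p11 (Sum.inr w) hmem h9'
    refine ⟨?_, fun i => ?_⟩
    · have h3 : (I w ∩ Q).card ≤ (I w ∩ (Q ∪ Res)).card := card_le_card (inter_subset_inter_left subset_union_left)
      exact h1.trans (Nat.mul_le_mul (le_trans (by omega) (le_max_left _ _)) h3)
    · have h3 : (I w ∩ P i).card ≤ (I w ∩ (P i \ Res)).card + r0 := by
        have h4 : I w ∩ P i ⊆ (I w ∩ (P i \ Res)) ∪ (P i ∩ Res) := by
          intro x hx
          rw [mem_inter] at hx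
          by_cases hxR : x ∈ Res
          · exact mem_union_right _ (mem_inter.2 ⟨hx.2, hxR⟩)
          · exact mem_union_left _ (mem_inter.2 ⟨hx.1, mem_sdiff.2 ⟨hx.2, hxR⟩⟩)
        have h5 := (card_le_card h4).trans (card_union_le _ _)
        have h6 := hRP i
        omega
      have h4 := h2 i
      have h5 : M * (I w ∩ P i).card ≤ M * ((I w ∩ (P i \ Res)).card + r0) := Nat.mul_le_mul_left _ h3
      have h6 : 2 * (I w).card ≤ 2 * M * (I w ∩ (P i \ Res)).card + 2 * M * r0 := by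
        calc 2 * (I w).card ≤ 2 * (M * ((I w ∩ (P i \ Res)).card + r0)) := by omega
          _ = 2 * M * (I w ∩ (P i \ Res)).card + 2 * M * r0 := by ring
      have h7 : (I w).card ≤ 2 * M * (I w ∩ (P i \ Res)).card := by omega
      exact h7.trans (Nat.mul_le_mul_right _ (le_max_left _ _))

end Pool.Agent.AEF
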