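import Pool.Agent.AEF.GoodOut
import Pool.Agent.AELT.Defs
import Pool.Agent.AE15.Host

/-!
# Light trees at a good host

Let `z` be good in `X`. In every representing subset `P` of `X` every tree `c` with a small in-closure of its root and
with at most `(1 - 8 η) |P| / ρ` vertices has a copy with its root in the out-neighbourhood of `z`: this is the light
theorem `lt` for the window of the good out-neighbours of `z`.
-/

namespace AEF

open Finset AE15 AED AELT
open scoped Classical

/-- the light theorem, as a hypothesis -/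
def LTp (b : ℕ) (ρ C κ β : ℝ) (n₀ : ℕ) : Prop :=
  ∀ {V : Type} {R : V → V → Prop}, AE32.Tour R → Un R b ρ C → ∀ (X : Finset V) (N : V → Prop), n₀ ≤ X.card →
    ∀ c : Fd, c.len ≤ b → c.Deg b → ρ * (c.size + 1) ≤ (1 - β) * X.card →
      β * X.card ≤ ((X.filter (fun z => N z ∧ Wide R κ (ρ * (dcl c + 1) + β * X.card) X z ∧
        Wide (fun a b => R b a) κ (ρ * (AEB.blk c + 1) + β * X.card) X z)).card : ℝ) → In R c N X

/-- every representing subset of `A` with at least `m₁` vertices carries every tree with at most `(1 - σ) |P| / ρ` vertices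
and with an in-closure of at most `γ |P| / ρ` vertices, its root satisfying `N` -/
def OkL {V : Type*} (R : V → V → Prop) (b : ℕ) (ρ σ γ : ℝ) (m₁ : ℕ) (A : Finset V) (𝓕 : Finset (Finset V)) (ε : ℝ)
    (N : V → Prop) : Prop :=
  ∀ P ⊆ A, m₁ ≤ P.card → Rep A 𝓕 ε P → ∀ c : Fd, c.len ≤ b → c.Deg b → ρ * (c.size + 1) ≤ (1 - σ) * P.card →
    ρ * (AEB.blk c + 1) ≤ γ * P.card → In R c N P

theorem dcl_le (c : Fd) : dcl c ≤ c.size := by
  induction c with
  | nil => exact le_rfl
  | node d c s ihc ihs =>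
    have h1 : dcl (.node d c s) = (if d then dcl c + 1 else 0) + dcl s := rfl
    have h2 : (Fd.node d c s).size = c.size + s.size + 1 := rfl
    rw [h1, h2]
    split_ifs <;> omega

/-- few vertices of a tournament have small in-degree -/
theorem card_low_nI {V : Type*} {R : V → V → Prop} (hT : AE32.Tour R) (W : Finset V) (j : ℕ) :
    (W.filter (fun u => (nI R W u).card < j)).card ≤ 2 * j := card_low_in hT j W

/-- **Light trees at a good host.** -/
theorem light_host (b : ℕ) {ρ C κ η : ℝ} (hρ : 1 ≤ ρ)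
    (hlt : ∀ κ β : ℝ, 0 < κ → 0 < β → ∃ n₀ : ℕ, LTp b ρ C κ β n₀) (hκ : 0 < κ) (hκ1 : κ ≤ 1) (hη : 0 < η)
    (hη1 : η ≤ 1 / 20) : ∃ (γ ε μ : ℝ) (m₁ : ℕ), 0 < γ ∧ 0 < ε ∧ 0 < μ ∧ μ ≤ 1 / 16 ∧
      ∀ {V : Type} {R : V → V → Prop}, AE32.Tour R → Un R b ρ C → ∀ (X : Finset V) (z : V), m₁ ≤ X.card →
        Good R κ η X z → ∃ 𝓕 : Finset (Finset V), 𝓕.card ≤ 6 * X.card ^ 2 ∧ (∀ F ∈ 𝓕, F ⊆ X) ∧
          ∀ A ⊆ X, ((X \ A).card : ℝ) ≤ μ * X.card → OkL R b ρ (8 * η) γ m₁ A 𝓕 ε (R z) := by
  obtain ⟨k, hk⟩ : ∃ k, k = kGO κ η := ⟨_, rfl⟩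
  obtain ⟨κ₁, hκ₁⟩ : ∃ κ₁, κ₁ = κGO κ η := ⟨_, rfl⟩
  have hk0 : 0 < k := by rw [hk]; exact kGO_pos hκ hη
  have hκ₁0 : 0 < κ₁ := by rw [hκ₁]; exact κGO_pos hκ hη
  have hkη : k ≤ η / 64 := by
    have h1 : κ ^ 2 ≤ 1 := by nlinarith
    have h2 : η * κ ^ 2 ≤ η * 1 := mul_le_mul_of_nonneg_left h1 hη.le
    rw [hk]
    unfold kGO
    linarith
  obtain ⟨n₀, hn₀⟩ := hlt (κ₁ / 2) (k / 32) (by positivity) (by positivity)
  obtain ⟨e, he⟩ : ∃ e : ℝ, e = min (min (κ₁ / 4) (k / 4)) (η / 2) := ⟨_, rfl⟩
  have he0 : 0 < e := by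
    rw [he]
    exact lt_min (lt_min (by positivity) (by positivity)) (by positivity)
  have he1 : e ≤ κ₁ / 4 := by rw [he]; exact (min_le_left _ _).trans (min_le_left _ _)
  have he2 : e ≤ k / 4 := by rw [he]; exact (min_le_left _ _).trans (min_le_right _ _)
  have he3 : e ≤ η / 2 := by rw [he]; exact min_le_right _ _
  refine ⟨k / 16, e, e, max n₀ (⌈20 / η⌉₊ + ⌈16 / k⌉₊), by positivity, he0, he0, by linarith, ?_⟩
  intro V R hT hU X z hX hG
  have hX1 : (20 : ℝ) ≤ η * X.card := by
    have h1 : ((⌈20 / η⌉₊ : ℕ) : ℝ) ≤ X.card := by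
      exact_mod_cast (Nat.le_add_right _ _).trans ((le_max_right _ _).trans hX)
    have h2 := Nat.le_ceil (20 / η)
    calc (20 : ℝ) = η * (20 / η) := by field_simp
      _ ≤ η * X.card := mul_le_mul_of_nonneg_left (h2.trans h1) hη.le
  have hXc : 0 < X.card := by
    rcases Nat.eq_zero_or_pos X.card with h | h
    · rw [h] at hX1
      norm_num at hX1
    · exact h
  have hX3 : 3 ≤ X.card := by
    by_contra h1
    push Not at h1
    have h2 : (X.card : ℝ) ≤ 3 := by exact_mod_cast h1.le
    nlinarith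
  set W := (nO R X z).filter (fun w => Good R κ₁ (4 * η) X w) with hW
  have hWX : W ⊆ X := (filter_subset _ _).trans nO_sub
  have hWc : k * X.card ≤ (W.card : ℝ) := by
    rw [hW, hk, hκ₁]
    exact good_out hT hκ hκ1 hη (by linarith) hX1 hG
  obtain ⟨FF, hF1, hF2, hF3⟩ := exists_family R κ₁ (4 * η) X
  refine ⟨insert W (FF ∪ FF.image (fun F => X \ F)), ?_, ?_, ?_⟩
  · have c2 : (FF.image (fun F => X \ F)).card ≤ FF.card := card_image_le
    have c4 := card_union_le FF (FF.image (fun F => X \ F))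
    have c6 := card_insert_le W (FF ∪ FF.image (fun F => X \ F))
    nlinarith
  · intro F hF
    rw [mem_insert, mem_union, mem_image] at hF
    rcases hF with rfl | hF | ⟨F', _, rfl⟩
    · exact hWX
    · exact hF2 F hF
    · exact sdiff_subset
  · intro A hA hXA P hP hPm hrep c hlen hdeg hsz hblk
    have hPX : P ⊆ X := hP.trans hA
    have hP1 : (16 : ℝ) ≤ k * P.card := by
      have h1 : ((⌈16 / k⌉₊ : ℕ) : ℝ) ≤ P.card := by
        exact_mod_cast (Nat.le_add_left _ _).trans ((le_max_right _ _).trans hPm)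
      have h2 := Nat.le_ceil (16 / k)
      calc (16 : ℝ) = k * (16 / k) := by field_simp
        _ ≤ k * P.card := mul_le_mul_of_nonneg_left (h2.trans h1) hk0.le
    have hPc : 0 < P.card := by
      rcases Nat.eq_zero_or_pos P.card with h | h
      · rw [h] at hP1
        norm_num at hP1
      · exact h
    have hPne : P.Nonempty := card_pos.1 hPc
    obtain ⟨q, hq⟩ : ∃ q : ℝ, q = (P.card : ℝ) := ⟨_, rfl⟩
    obtain ⟨n, hn⟩ : ∃ n : ℝ, n = (X.card : ℝ) := ⟨_, rfl⟩
    have hq0 : 0 < q := by rw [hq]; exact_mod_cast hPc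
    have hn0 : 0 < n := by rw [hn]; exact_mod_cast hXc
    have hXA' : 15 * (X.card : ℝ) ≤ 16 * A.card := by
      have h1 : (X.card : ℝ) = (X \ A).card + A.card := by exact_mod_cast (card_sdiff_add_card_eq_card hA).symm
      rw [← hn] at h1 hXA ⊢
      have h2 : e * n ≤ 1 / 40 * n := mul_le_mul_of_nonneg_right (by linarith) hn0.le
      linarith
    -- goodness in `P`
    have hgood : ∀ w ∈ W, Good R (κ₁ / 2) (5 * η) P w := by
      intro w hw
      refine hF3 P hPX (κ₁ / 2) (5 * η) ?_ ?_ w (hWX hw) (mem_filter.1 hw).2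
      · intro F hF hFc
        have h1 := hrep.lower hA hXA hP hPne (mem_insert_of_mem (mem_union_left _ hF)) (hF2 F hF)
        rw [← hn, ← hq] at h1
        rw [← hn] at hFc
        rw [← hq]
        have h2 : n * (κ₁ / 2 * q) ≤ (F.card - (e + e) * n) * q := by
          have h3 : κ₁ / 2 * n ≤ F.card - (e + e) * n := by nlinarith
          calc n * (κ₁ / 2 * q) = (κ₁ / 2 * n) * q := by ring
            _ ≤ _ := mul_le_mul_of_nonneg_right h3 hq0.le
        exact le_of_mul_le_mul_left (h2.trans h1) hn0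
      · intro F hF hFc
        have h1 := hrep.upper hA hXA' hP hPne
          (mem_insert_of_mem (mem_union_right _ (mem_image.2 ⟨F, hF, rfl⟩)))
        rw [← hn, ← hq] at h1
        rw [← hn] at hFc
        rw [← hq]
        have h2 : (16 * F.card + 15 * e * n) * q ≤ 15 * n * (5 * η * q) := by
          have h3 : 16 * (F.card : ℝ) + 15 * e * n ≤ 15 * n * (5 * η) := by nlinarith
          calc _ ≤ 15 * n * (5 * η) * q := mul_le_mul_of_nonneg_right h3 hq0.le
            _ = 15 * n * (5 * η * q) := by ring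
        exact le_of_mul_le_mul_left (h1.trans h2) (by positivity)
    -- the good out-neighbours in `P`
    set WP := W ∩ P with hWP
    have hWPc : k / 2 * q ≤ (WP.card : ℝ) := by
      have h1 := hrep.lower hA hXA hP hPne (mem_insert_self _ _) hWX
      rw [← hn, ← hq] at h1
      rw [← hn] at hWc
      have h2 : n * (k / 2 * q) ≤ (W.card - (e + e) * n) * q := by
        have h3 : k / 2 * n ≤ W.card - (e + e) * n := by nlinarith
        calc n * (k / 2 * q) = (k / 2 * n) * q := by ring
          _ ≤ _ := mul_le_mul_of_nonneg_right h3 hq0.le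
      exact le_of_mul_le_mul_left (h2.trans h1) hn0
    obtain ⟨j, hj⟩ : ∃ j : ℕ, j = ⌈k / 8 * q⌉₊ := ⟨_, rfl⟩
    have hj1 : k / 8 * q ≤ j := by rw [hj]; exact Nat.le_ceil _
    have hj2 : (j : ℝ) < k / 8 * q + 1 := by rw [hj]; exact Nat.ceil_lt_add_one (by positivity)
    have hlow := card_low_nI hT WP j
    rw [← hq] at hP1 hsz hblk
    have hkq : 0 < k * q := by positivity
    have hβ : k / 32 * q ≤ 3 * η * q := mul_le_mul_of_nonneg_right (by linarith) hq0.le
    have hηq : 0 < η * q := by positivity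
    have hdcl : ((dcl c : ℕ) : ℝ) ≤ c.size := by exact_mod_cast dcl_le c
    have hc0 : (0 : ℝ) ≤ dcl c := Nat.cast_nonneg _
    refine hn₀ hT hU P (R z) ((le_max_left _ _).trans hPm) c hlen hdeg ?_ ?_
    · rw [← hq]
      have h1 : (1 - 8 * η) * q ≤ (1 - k / 32) * q := mul_le_mul_of_nonneg_right (by linarith) hq0.le
      linarith
    · rw [← hq]
      have h1 : WP \ WP.filter (fun u => (nI R WP u).card < j) ⊆
          P.filter (fun w => R z w ∧ Wide R (κ₁ / 2) (ρ * (dcl c + 1) + k / 32 * q) P w ∧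
            Wide (fun a b => R b a) (κ₁ / 2) (ρ * (AEB.blk c + 1) + k / 32 * q) P w) := by
        intro w hw
        rw [mem_sdiff, mem_filter, not_and, not_lt] at hw
        have hwW : w ∈ W := (mem_inter.1 hw.1).1
        have hwP : w ∈ P := (mem_inter.1 hw.1).2
        have hwj := hw.2 hw.1
        rw [mem_filter]
        refine ⟨hwP, ?_, ?_, ?_⟩
        · exact (mem_nO.1 (mem_filter.1 hwW).1).2
        · intro Q hQ hnQ hcQ
          have h2 := hgood w hwW Q hQ hnQ hcQ
          rw [← hq] at h2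
          have h3 : (P.card : ℝ) = (P \ Q).card + Q.card := by exact_mod_cast (card_sdiff_add_card_eq_card hQ).symm
          rw [← hq] at h3
          have h4 : ρ * ((dcl c : ℝ) + 1) ≤ ρ * (c.size + 1) :=
            mul_le_mul_of_nonneg_left (by linarith) (by linarith)
          have h5 : (1 - 8 * η) * q = q - 8 * (η * q) := by ring
          have h6 : 5 * η * q = 5 * (η * q) := by ring
          have h7 : 3 * η * q = 3 * (η * q) := by ring
          rw [h5] at hsz
          rw [h6] at h2
          rw [h7] at hβ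
          linarith
        · intro Q hQ hnQ _
          have h2 : nI R WP w ⊆ Q := by
            intro u hu
            rw [mem_nI] at hu
            exact hnQ (mem_nO.2 ⟨(mem_inter.1 hu.1).2, hu.2⟩)
          have h3 : (j : ℝ) ≤ Q.card := by exact_mod_cast hwj.trans (card_le_card h2)
          have h4 : k / 16 * q = k * q / 16 := by ring
          have h5 : k / 32 * q = k * q / 32 := by ring
          have h6 : k / 8 * q = k * q / 8 := by ring
          rw [h4] at hblk
          rw [h6] at hj1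
          rw [h5]
          linarith
      have h2 : WP.card ≤ (WP \ WP.filter (fun u => (nI R WP u).card < j)).card + 2 * j := by
        have h3 := card_sdiff_add_card_eq_card (filter_subset (fun u => (nI R WP u).card < j) WP)
        omega
      have h3 : (WP.card : ℝ) ≤ (WP \ WP.filter (fun u => (nI R WP u).card < j)).card + 2 * j := by
        exact_mod_cast h2
      have h4 : ((WP \ WP.filter (fun u => (nI R WP u).card < j)).card : ℝ) ≤
          ((P.filter (fun w => R z w ∧ Wide R (κ₁ / 2) (ρ * (dcl c + 1) + k / 32 * q) P w ∧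
            Wide (fun a b => R b a) (κ₁ / 2) (ρ * (AEB.blk c + 1) + k / 32 * q) P w)).card : ℝ) := by
        exact_mod_cast card_le_card h1
      refine le_trans ?_ h4
      have h5 : k / 32 * q = k * q / 32 := by ring
      have h6 : k / 8 * q = k * q / 8 := by ring
      have h7 : k / 2 * q = k * q / 2 := by ring
      rw [h6] at hj2
      rw [h7] at hWPc
      rw [h5]
      linarith

end AEF
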