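import Pool.Agent.AEM.Order
import Pool.Agent.AE15.Levels

/-!
# Closures in median orders

In a global median order of `X` every closed set which contains the out-neighbours of `x` contains all but `8 κ |X|` of
the vertices after `x`.
-/

namespace AEF

open Finset AE15 AEM
open scoped Classical

variable {V : Type*} {R : V → V → Prop}

/-- closed sets containing the out-neighbours of `x` lose few of the vertices after `x` -/
theorem med_closed (hT : AE32.Tour R) {X : Finset V} {p : V → ℕ} (h : MedO R X p) {κ : ℝ} (hκ : 0 ≤ κ) {x : V}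
    (hx : x ∈ X) {C : Finset V} (hn : nO R X x ⊆ C) (hc : Closed R κ X C) :
    ((X.filter (fun u => p x < p u ∧ u ∉ C)).card : ℝ) ≤ 8 * κ * X.card := by
  set S := X.filter (fun u => p x < p u ∧ u ∉ C) with hS
  have hmem : ∀ {u}, u ∈ S ↔ u ∈ X ∧ p x < p u ∧ u ∉ C := by
    intro u
    rw [hS, mem_filter]
  have h1 := h.front x hx S (filter_subset _ _) (fun u hu => (hmem.1 hu).2.1)
  set A : V → Finset V := fun u => X.filter (fun w => w ∉ S ∧ p x ≤ p w ∧ p w < p u ∧ R w u) with hA
  set B : V → Finset V := fun u => X.filter (fun w => w ∉ S ∧ p x ≤ p w ∧ p w < p u ∧ R u w) with hB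
  have h1' : ∑ u ∈ S, (B u).card ≤ ∑ u ∈ S, (A u).card := h1
  have hAc : ∀ u ∈ S, ((A u).card : ℝ) ≤ κ * X.card := by
    intro u hu
    obtain ⟨huX, hxu, huC⟩ := hmem.1 hu
    refine le_trans ?_ (hc u huX huC).le
    have h2 : A u ⊆ nI R C u := by
      intro w hw
      rw [hA] at hw
      simp only [mem_filter] at hw
      obtain ⟨a1, a2, a3, a4, a5⟩ := hw
      rw [mem_nI]
      refine ⟨?_, a5⟩
      rcases Nat.lt_or_ge (p x) (p w) with h5 | h5
      · by_contra h6
        exact a2 (hmem.2 ⟨a1, h5, h6⟩)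
      · have h6 : w = x := h.inj w a1 x hx (by omega)
        rw [h6] at a5
        exact absurd (hn (mem_nO.2 ⟨huX, a5⟩)) huC
    exact_mod_cast card_le_card h2
  have hpos : ∀ u ∈ S, p u - p x ≤ 2 * ((A u).card + (B u).card) := by
    intro u hu
    obtain ⟨huX, hxu, huC⟩ := hmem.1 hu
    have h2 := h.out_half hT hx huX hxu
    have h3 : X.filter (fun w => p x < p w ∧ p w ≤ p u ∧ R x w) ⊆ A u ∪ B u := by
      intro w hw
      rw [mem_filter] at hw
      obtain ⟨a1, a2, a3, a4⟩ := hw
      have hwC : w ∈ C := hn (mem_nO.2 ⟨a1, a4⟩)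
      have hwS : w ∉ S := fun h' => (hmem.1 h').2.2 hwC
      have hwu : w ≠ u := by
        rintro rfl
        exact huC hwC
      have h4 : p w < p u := by
        have : p w ≠ p u := fun h' => hwu (h.inj w a1 u huX h')
        omega
      rw [mem_union, hA, hB]
      simp only [mem_filter]
      rcases hT.tot w u hwu with h5 | h5
      · exact Or.inl ⟨a1, hwS, a2.le, h4, h5⟩
      · exact Or.inr ⟨a1, hwS, a2.le, h4, h5⟩
    have h4 := card_le_card h3
    have h5 := card_union_le (A u) (B u)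
    omega
  have hrank : ∀ u ∈ S, (S.filter (fun w => p w < p u)).card + 1 ≤ p u - p x := by
    intro u hu
    obtain ⟨huX, hxu, huC⟩ := hmem.1 hu
    have h2 := h.card_seg (a := p x + 1) (b := p u) (h.lt u huX).le
    have h3 : S.filter (fun w => p w < p u) ⊆ X.filter (fun w => p x + 1 ≤ p w ∧ p w < p u) := by
      intro w hw
      rw [mem_filter, hmem] at hw
      rw [mem_filter]
      exact ⟨hw.1.1, by omega, hw.2⟩
    have h4 := card_le_card h3
    omega
  have h2 := sum_rank (p := p) S (fun u hu w hw => h.inj u (hmem.1 hu).1 w (hmem.1 hw).1)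
  have h3 : ∑ u ∈ S, ((S.filter (fun w => p w < p u)).card + 1) ≤ ∑ u ∈ S, 2 * ((A u).card + (B u).card) :=
    sum_le_sum (fun u hu => (hrank u hu).trans (hpos u hu))
  rw [sum_add_distrib, ← mul_sum, sum_add_distrib, sum_const, smul_eq_mul, mul_one] at h3
  rcases Nat.eq_zero_or_pos S.card with h0 | h0
  · rw [h0]
    push_cast
    positivity
  · obtain ⟨s, hs⟩ : ∃ s, S.card = s + 1 := ⟨S.card - 1, by omega⟩
    rw [hs] at h2 h3
    have h4 : (∑ u ∈ S, (A u).card : ℝ) ≤ S.card * (κ * X.card) := by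
      calc (∑ u ∈ S, (A u).card : ℝ) ≤ ∑ u ∈ S, κ * X.card := sum_le_sum hAc
        _ = S.card * (κ * X.card) := by rw [sum_const, nsmul_eq_mul]
    have h5 : (s + 1) * s + 2 * (s + 1) ≤ 8 * ∑ u ∈ S, (A u).card := by
      have h6 : (s + 1) * (s + 1 - 1) = (s + 1) * s := by simp
      rw [h6] at h2
      omega
    have h6 : ((s : ℝ) + 1) * s + 2 * (s + 1) ≤ 8 * ∑ u ∈ S, ((A u).card : ℝ) := by exact_mod_cast h5
    rw [hs]
    rw [hs] at h4
    push_cast at h4 ⊢
    have h7 : ((s : ℝ) + 1) * (s + 2) ≤ (s + 1) * (8 * (κ * X.card)) := by linarith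
    have h8 : ((s : ℝ) + 2) ≤ 8 * (κ * X.card) := le_of_mul_le_mul_left h7 (by positivity)
    linarith

/-- the reversed relation is a tournament -/
theorem tour_rev (hT : AE32.Tour R) : AE32.Tour (fun a b => R b a) :=
  ⟨hT.irr, fun a b hab => (hT.tot a b hab).symm, fun _ _ hab => hT.asym _ _ hab⟩

/-- the dual: closed sets (for the reversed relation) containing the in-neighbours of `x` lose few of the vertices
before `x` -/
theorem med_closed' (hT : AE32.Tour R) {X : Finset V} {p : V → ℕ} (h : MedO R X p) {κ : ℝ} (hκ : 0 ≤ κ) {x : V}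
    (hx : x ∈ X) {C : Finset V} (hn : nI R X x ⊆ C) (hc : Closed (fun a b => R b a) κ X C) :
    ((X.filter (fun u => p u < p x ∧ u ∉ C)).card : ℝ) ≤ 8 * κ * X.card := by
  have h1 := med_closed (tour_rev hT) h.rev hκ hx (C := C) hn hc
  refine le_trans ?_ h1
  have h2 : X.filter (fun u => p u < p x ∧ u ∉ C) ⊆
      X.filter (fun u => X.card - 1 - p x < X.card - 1 - p u ∧ u ∉ C) := by
    intro u hu
    rw [mem_filter] at hu ⊢
    have h3 := h.lt x hx
    exact ⟨hu.1, by omega, hu.2.2⟩
  exact_mod_cast card_le_card h2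

/-- closed sets containing the out-neighbours of `x` are large -/
theorem med_closed_card (hT : AE32.Tour R) {X : Finset V} {p : V → ℕ} (h : MedO R X p) {κ : ℝ} (hκ : 0 ≤ κ) {x : V}
    (hx : x ∈ X) {C : Finset V} (hn : nO R X x ⊆ C) (hc : Closed R κ X C) :
    ((X \ C).card : ℝ) ≤ p x + 1 + 8 * κ * X.card := by
  have h1 := med_closed hT h hκ hx hn hc
  have h2 := h.card_seg (a := 0) (b := p x + 1) (h.lt x hx)
  have h3 : X \ C ⊆ X.filter (fun w => 0 ≤ p w ∧ p w < p x + 1) ∪ X.filter (fun u => p x < p u ∧ u ∉ C) := by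
    intro u hu
    rw [mem_sdiff] at hu
    rw [mem_union, mem_filter, mem_filter]
    rcases Nat.lt_or_ge (p x) (p u) with h4 | h4
    · exact Or.inr ⟨hu.1, h4, hu.2⟩
    · exact Or.inl ⟨hu.1, Nat.zero_le _, by omega⟩
  have h4 := (card_le_card h3).trans (card_union_le _ _)
  rw [h2] at h4
  have h5 : ((X \ C).card : ℝ) ≤ ((p x + 1 - 0 : ℕ) : ℝ) + (X.filter (fun u => p x < p u ∧ u ∉ C)).card := by
    exact_mod_cast h4
  rw [Nat.sub_zero] at h5
  push_cast at h5
  linarith

/-- **Early vertices of median orders are good.** -/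
theorem med_good (hT : AE32.Tour R) {X : Finset V} {p : V → ℕ} (h : MedO R X p) {κ η : ℝ} (hκ : 0 ≤ κ) {x : V}
    (hx : x ∈ X) (hp : (p x : ℝ) + 1 + 8 * κ * X.card ≤ η * X.card) : Good R κ η X x :=
  fun _ _ hn hc => (med_closed_card hT h hκ hx hn hc).trans hp

/-- **Late vertices of median orders are good for the reversed relation.** -/
theorem med_good' (hT : AE32.Tour R) {X : Finset V} {p : V → ℕ} (h : MedO R X p) {κ η : ℝ} (hκ : 0 ≤ κ) {x : V}
    (hx : x ∈ X) (hp : (X.card : ℝ) - p x + 8 * κ * X.card ≤ η * X.card) : Good (fun a b => R b a) κ η X x := by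
  refine med_good (tour_rev hT) h.rev hκ hx ?_
  have h1 := h.lt x hx
  have h2 : ((X.card - 1 - p x : ℕ) : ℝ) = X.card - 1 - p x := by
    rw [Nat.cast_sub (by omega), Nat.cast_sub (by omega)]
    push_cast
    ring
  rw [h2]
  linarith

/-- a closed set which contains the out-neighbours of `x` contains most of every interval which follows `x` -/
theorem med_closed_seg (hT : AE32.Tour R) {X : Finset V} {p : V → ℕ} (h : MedO R X p) {κ : ℝ} (hκ : 0 ≤ κ) {x : V}
    (hx : x ∈ X) {C : Finset V} (hn : nO R X x ⊆ C) (hc : Closed R κ X C) {a b : ℕ} (ha : p x < a) (hb : b ≤ X.card) :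
    ((b - a : ℕ) : ℝ) - 8 * κ * X.card ≤ ((C.filter (fun u => a ≤ p u ∧ p u < b)).card : ℝ) := by
  have h1 := med_closed hT h hκ hx hn hc
  have h2 := h.card_seg (a := a) (b := b) hb
  have h3 : X.filter (fun w => a ≤ p w ∧ p w < b) ⊆
      C.filter (fun u => a ≤ p u ∧ p u < b) ∪ X.filter (fun u => p x < p u ∧ u ∉ C) := by
    intro u hu
    rw [mem_filter] at hu
    rw [mem_union, mem_filter, mem_filter]
    by_cases h4 : u ∈ C
    · exact Or.inl ⟨h4, hu.2⟩
    · exact Or.inr ⟨hu.1, by omega, h4⟩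
  have h4 := (card_le_card h3).trans (card_union_le _ _)
  rw [h2] at h4
  have h5 : ((b - a : ℕ) : ℝ) ≤ (C.filter (fun u => a ≤ p u ∧ p u < b)).card +
      (X.filter (fun u => p x < p u ∧ u ∉ C)).card := by exact_mod_cast h4
  linarith

end AEF
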