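import Pool.Agent.AE15.Pieces

/-!
# Graded thinning

`exists_split_two`: one partition into classes of equal size which is proportional (up to a small additive
error) for a polynomial family and meets, in a fixed proportion of their size, all members of a second
family whose weights have a small sum; in particular a family for which the number of members of size at
most `j` is linear in `j`.
-/

set_option autoImplicit false

namespace Pool.Agent.AEF

open Finset Pool.Agent.AE15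

section core

variable {m N : ℕ} [NeZero N]

lemma bad_le (S : Finset (Fin m × Fin N)) (i : Fin N) (t : ℕ) (hS : 4 * N * t ≤ S.card) :
    ((Finset.univ.filter (fun s : Fin m → Fin N =>
      (S.filter (fun x => x.2 + s x.1 = i)).card < t)).card : ℝ) ≤ (N : ℝ) ^ m * (1 / 2) ^ t := by
  have h := card_bad S i t hS
  have h2 : (0 : ℝ) < (1 / 2) ^ t := by positivity
  have h3 : (2 : ℝ) ^ t * (1 / 2) ^ t = 1 := by
    rw [← mul_pow]; norm_num
  have h4 := mul_le_mul_of_nonneg_right h h2.le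
  rw [mul_assoc, h3, mul_one] at h4
  exact h4

lemma bad_prop_le (S : Finset (Fin m × Fin N)) (i : Fin N) {ε : ℝ} (h0 : 0 ≤ ε) (h1 : ε ≤ 1) :
    ((Finset.univ.filter (fun s : Fin m → Fin N =>
      ((S.filter (fun x => x.2 + s x.1 = i)).card : ℝ) < S.card / N - ε * m)).card : ℝ) ≤
        (N : ℝ) ^ m * Real.exp (-(ε ^ 2 * m / 4)) := by
  have h := card_bad_prop S i h0 h1
  have h2 := Real.exp_pos (-(ε ^ 2 * m / 4))
  have h3 : Real.exp (ε ^ 2 * m / 4) * Real.exp (-(ε ^ 2 * m / 4)) = 1 := by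
    rw [← Real.exp_add, add_neg_cancel, Real.exp_zero]
  have h4 := mul_le_mul_of_nonneg_right h h2.le
  rw [mul_assoc, h3, mul_one] at h4
  exact h4

lemma exists_shift_two {ι : Type*} [DecidableEq ι] (F : Finset (Finset (Fin m × Fin N))) (G : Finset ι)
    (D : ι → Finset (Fin m × Fin N)) (t : ι → ℕ) {ε : ℝ} (h0 : 0 ≤ ε) (h1 : ε ≤ 1)
    (hF : (F.card : ℝ) * N * Real.exp (-(ε ^ 2 * m / 4)) < 1 / 2)
    (hG : ∀ u ∈ G, 4 * N * t u ≤ (D u).card) (hGs : ∑ u ∈ G, (N : ℝ) * (1 / 2) ^ (t u) ≤ 1 / 2) :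
    ∃ s : Fin m → Fin N, (∀ S ∈ F, ∀ i : Fin N,
      (S.card : ℝ) / N - ε * m ≤ ((S.filter (fun x => x.2 + s x.1 = i)).card : ℝ)) ∧
      ∀ u ∈ G, ∀ i : Fin N, t u ≤ ((D u).filter (fun x => x.2 + s x.1 = i)).card := by
  classical
  by_contra hcon
  push Not at hcon
  have hN : (0 : ℝ) < N := by exact_mod_cast Nat.pos_of_ne_zero (NeZero.ne N)
  set B1 := (F ×ˢ (Finset.univ : Finset (Fin N))).biUnion (fun q =>
        Finset.univ.filter (fun s : Fin m → Fin N =>
          ((q.1.filter (fun x => x.2 + s x.1 = q.2)).card : ℝ) < q.1.card / N - ε * m)) with hB1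
  set B2 := (G ×ˢ (Finset.univ : Finset (Fin N))).biUnion (fun q =>
        Finset.univ.filter (fun s : Fin m → Fin N =>
          ((D q.1).filter (fun x => x.2 + s x.1 = q.2)).card < t q.1)) with hB2
  have hcov : (Finset.univ : Finset (Fin m → Fin N)) ⊆ B1 ∪ B2 := by
    intro s _
    by_cases hs : ∀ S ∈ F, ∀ i : Fin N,
      (S.card : ℝ) / N - ε * m ≤ ((S.filter (fun x => x.2 + s x.1 = i)).card : ℝ)
    · obtain ⟨u, hu, i, hi⟩ := hcon s hs
      rw [mem_union]
      right
      rw [hB2, mem_biUnion]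
      exact ⟨(u, i), by simp [hu], by simpa using hi⟩
    · push Not at hs
      obtain ⟨S, hS, i, hi⟩ := hs
      rw [mem_union]
      left
      rw [hB1, mem_biUnion]
      exact ⟨(S, i), by simp [hS], by simpa using hi⟩
  have h2 : (N : ℝ) ^ m ≤ B1.card + B2.card := by
    have h := (Finset.card_le_card hcov).trans (card_union_le _ _)
    rw [Finset.card_univ, Fintype.card_fun, Fintype.card_fin, Fintype.card_fin] at h
    exact_mod_cast h
  have h3 : (B1.card : ℝ) ≤ (F.card : ℝ) * N * ((N : ℝ) ^ m * Real.exp (-(ε ^ 2 * m / 4))) := by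
    have h4 : (B1.card : ℝ) ≤ ∑ q ∈ F ×ˢ (Finset.univ : Finset (Fin N)),
        ((Finset.univ.filter (fun s : Fin m → Fin N =>
          ((q.1.filter (fun x => x.2 + s x.1 = q.2)).card : ℝ) < q.1.card / N - ε * m)).card : ℝ) := by
      exact_mod_cast card_biUnion_le
    refine h4.trans ((Finset.sum_le_sum (g := fun _ => (N : ℝ) ^ m * Real.exp (-(ε ^ 2 * m / 4)))
      (fun q _ => bad_prop_le q.1 q.2 h0 h1)).trans (le_of_eq ?_))
    rw [Finset.sum_const, nsmul_eq_mul, card_product, Finset.card_univ, Fintype.card_fin]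
    push_cast
    ring
  have h5 : (B2.card : ℝ) ≤ (N : ℝ) ^ m * ∑ u ∈ G, (N : ℝ) * (1 / 2) ^ (t u) := by
    have h6 : (B2.card : ℝ) ≤ ∑ q ∈ G ×ˢ (Finset.univ : Finset (Fin N)),
        ((Finset.univ.filter (fun s : Fin m → Fin N =>
          ((D q.1).filter (fun x => x.2 + s x.1 = q.2)).card < t q.1)).card : ℝ) := by
      exact_mod_cast card_biUnion_le
    refine h6.trans ((Finset.sum_le_sum (g := fun q => (N : ℝ) ^ m * (1 / 2) ^ (t q.1))
      (fun q hq => bad_le (D q.1) q.2 (t q.1) (hG q.1 (mem_product.1 hq).1))).trans (le_of_eq ?_))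
    rw [Finset.sum_product, Finset.mul_sum]
    apply Finset.sum_congr rfl
    intro u _
    simp only [Finset.sum_const, nsmul_eq_mul, Finset.card_univ, Fintype.card_fin]
    ring
  have h7 : (0 : ℝ) < (N : ℝ) ^ m := by positivity
  have h8 : (F.card : ℝ) * N * ((N : ℝ) ^ m * Real.exp (-(ε ^ 2 * m / 4))) < (N : ℝ) ^ m * (1 / 2) := by
    calc (F.card : ℝ) * N * ((N : ℝ) ^ m * Real.exp (-(ε ^ 2 * m / 4)))
        = (N : ℝ) ^ m * ((F.card : ℝ) * N * Real.exp (-(ε ^ 2 * m / 4))) := by ring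
      _ < _ := mul_lt_mul_of_pos_left hF h7
  have h9 : (N : ℝ) ^ m * ∑ u ∈ G, (N : ℝ) * (1 / 2) ^ (t u) ≤ (N : ℝ) ^ m * (1 / 2) :=
    mul_le_mul_of_nonneg_left hGs h7.le
  linarith

end core

/-- **Sampling lemma with a graded family.** -/
theorem exists_split_two {A ι : Type*} [DecidableEq A] [DecidableEq ι] (X : Finset A) (N m : ℕ)
    (hN : 0 < N) (hX : X.card = N * m) (F : Finset (Finset A)) (hF : ∀ S ∈ F, S ⊆ X) (G : Finset ι)
    (D : ι → Finset A) (hD : ∀ u ∈ G, D u ⊆ X) (t : ι → ℕ) {ε : ℝ} (h0 : 0 ≤ ε)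
    (h1 : ε ≤ 1) (hc : (F.card : ℝ) * N * Real.exp (-(ε ^ 2 * m / 4)) < 1 / 2)
    (hG : ∀ u ∈ G, 4 * N * t u ≤ (D u).card) (hGs : ∑ u ∈ G, (N : ℝ) * (1 / 2) ^ (t u) ≤ 1 / 2) :
    ∃ f : A → Fin N, (∀ i, (X.filter (fun x => f x = i)).card = m) ∧
      (∀ S ∈ F, ∀ i, (S.card : ℝ) / N - ε * m ≤ ((S.filter (fun x => f x = i)).card : ℝ)) ∧
      ∀ u ∈ G, ∀ i, t u ≤ ((D u).filter (fun x => f x = i)).card := by
  classical
  have : NeZero N := ⟨hN.ne'⟩
  have hcard : Fintype.card X = Fintype.card (Fin m × Fin N) := by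
    rw [Fintype.card_coe, hX, Fintype.card_prod, Fintype.card_fin, Fintype.card_fin, mul_comm]
  let e : X ≃ Fin m × Fin N := Fintype.equivOfCardEq hcard
  let im : Finset A → Finset (Fin m × Fin N) := fun S =>
    Finset.univ.filter (fun q => ((e.symm q : X) : A) ∈ S)
  have him : ∀ S ⊆ X, ∀ P : Fin m × Fin N → Prop, [DecidablePred P] →
      ((im S).filter P).card = (S.filter (fun x => ∃ h : x ∈ X, P (e ⟨x, h⟩))).card := by
    intro S hS P _
    refine Finset.card_bij (fun q _ => ((e.symm q : X) : A)) ?_ ?_ ?_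
    · intro q hq
      simp only [im, mem_filter, mem_univ, true_and] at hq ⊢
      refine ⟨hq.1, (e.symm q).2, ?_⟩
      have : e ⟨((e.symm q : X) : A), (e.symm q).2⟩ = q := by
        rw [Subtype.coe_eta, Equiv.apply_symm_apply]
      rw [this]
      exact hq.2
    · intro q _ q' _ h
      exact e.symm.injective (Subtype.ext h)
    · intro x hx
      rw [mem_filter] at hx
      obtain ⟨hxS, hxX, hP⟩ := hx
      refine ⟨e ⟨x, hxX⟩, ?_, by simp⟩
      simp only [im, mem_filter, mem_univ, true_and, Equiv.symm_apply_apply]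
      exact ⟨hxS, hP⟩
  have himc : ∀ S ⊆ X, (im S).card = S.card := by
    intro S hS
    have h := him S hS (fun _ => True)
    rw [Finset.filter_true] at h
    rw [h]
    congr 1
    apply Finset.filter_true_of_mem
    intro x hx
    exact ⟨hS hx, trivial⟩
  obtain ⟨s, hs1, hs2⟩ := exists_shift_two (F.image im) G (fun u => im (D u)) t h0 h1
    (lt_of_le_of_lt (by
      have : ((F.image im).card : ℝ) ≤ F.card := by exact_mod_cast Finset.card_image_le
      exact mul_le_mul_of_nonneg_right (mul_le_mul_of_nonneg_right this (by positivity))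
        (Real.exp_pos _).le) hc)
    (fun u hu => by rw [himc (D u) (hD u hu)]; exact hG u hu) hGs
  let f : A → Fin N := fun x => if h : x ∈ X then (e ⟨x, h⟩).2 + s (e ⟨x, h⟩).1 else 0
  have hf : ∀ S ⊆ X, ∀ i, (S.filter (fun x => f x = i)).card =
      ((im S).filter (fun q => q.2 + s q.1 = i)).card := by
    intro S hS i
    rw [him S hS]
    congr 1
    apply Finset.filter_congr
    intro x hx
    have hxX := hS hx
    simp only [f, dif_pos hxX]
    exact ⟨fun h => ⟨hxX, h⟩, fun ⟨_, h⟩ => h⟩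
  refine ⟨f, fun i => ?_, fun S hS i => ?_, fun u hu i => ?_⟩
  · rw [hf X (Finset.Subset.refl _)]
    have hu : im X = Finset.univ := by
      apply Finset.filter_true_of_mem
      intro q _
      exact (e.symm q).2
    rw [hu, card_class]
    simp
  · rw [hf S (hF S hS), ← himc S (hF S hS)]
    exact hs1 _ (Finset.mem_image_of_mem im hS) i
  · rw [hf (D u) (hD u hu)]
    exact hs2 u hu i

/-- A graded family: the number of members of size at most `j` is at most `K (j + 1)`. -/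
def Graded {A ι : Type*} (G : Finset ι) (D : ι → Finset A) (K : ℕ) : Prop :=
  ∀ j : ℕ, (G.filter (fun u => (D u).card ≤ j)).card ≤ K * (j + 1)

lemma sum_geo (L M : ℕ) (h : L ≤ M) :
    ∑ τ ∈ Finset.Ico L M, ((τ : ℝ) + 1) * (1 / 2) ^ τ ≤ (2 * L + 4) * (1 / 2) ^ L := by
  have key : ∑ τ ∈ Finset.Ico L M, ((τ : ℝ) + 1) * (1 / 2) ^ τ =
      (2 * L + 4) * (1 / 2) ^ L - (2 * M + 4) * (1 / 2) ^ M := by
    induction M, h using Nat.le_induction with
    | base => simp
    | succ M hM ih =>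
      rw [Finset.sum_Ico_succ_top hM, ih, pow_succ]
      push_cast
      ring
  rw [key]
  have : (0 : ℝ) ≤ (2 * M + 4) * (1 / 2) ^ M := by positivity
  linarith

lemma exists_L (c : ℝ) (hc : 0 < c) : ∃ L : ℕ, (2 * (L : ℝ) + 4) * (1 / 2) ^ L ≤ c := by
  have h1 := tendsto_pow_const_mul_const_pow_of_abs_lt_one 1 (r := (1 / 2 : ℝ)) (by norm_num [abs_of_pos])
  have h2 := tendsto_pow_atTop_nhds_zero_of_lt_one (r := (1 / 2 : ℝ)) (by norm_num) (by norm_num)
  have h3 : Filter.Tendsto (fun n : ℕ => (2 * (n : ℝ) + 4) * (1 / 2) ^ n) Filter.atTop (nhds 0) := by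
    have h4 := (h1.const_mul 2).add (h2.const_mul 4)
    simp only [mul_zero, add_zero] at h4
    refine h4.congr (fun n => ?_)
    rw [pow_one]
    ring
  have h5 := h3.eventually (ge_mem_nhds hc)
  exact h5.exists

/-- **Graded thinning.** -/
theorem exists_split_graded (N K : ℕ) (hN : 0 < N) : ∃ c₉ : ℕ, ∀ {A ι : Type} [DecidableEq A] [DecidableEq ι]
    (X : Finset A) (m : ℕ), X.card = N * m → ∀ (F : Finset (Finset A)), (∀ S ∈ F, S ⊆ X) →
    ∀ (G : Finset ι) (D : ι → Finset A), (∀ u ∈ G, D u ⊆ X) → Graded G D K → ∀ ε : ℝ, 0 ≤ ε → ε ≤ 1 →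
    (F.card : ℝ) * N * Real.exp (-(ε ^ 2 * m / 4)) < 1 / 2 →
    ∃ f : A → Fin N, (∀ i, (X.filter (fun x => f x = i)).card = m) ∧
      (∀ S ∈ F, ∀ i, (S.card : ℝ) / N - ε * m ≤ ((S.filter (fun x => f x = i)).card : ℝ)) ∧
      ∀ u ∈ G, c₉ ≤ (D u).card → ∀ i, (D u).card ≤ 8 * N * ((D u).filter (fun x => f x = i)).card := by
  classical
  obtain ⟨L, hL⟩ := exists_L (1 / (2 * ((N : ℝ) * (K + 1) * (4 * N + 1) * 1))) (by positivity)
  refine ⟨max (8 * N) (4 * N * L), ?_⟩
  intro A ι _ _ X m hX F hF G D hD hgr ε h0 h1 hc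
  set t : ι → ℕ := fun u => (D u).card / (4 * N) with ht
  set G' := G.filter (fun u => max (8 * N) (4 * N * L) ≤ (D u).card) with hG'
  have h4N : 0 < 4 * N := by omega
  have htL : ∀ u ∈ G', L ≤ t u := by
    intro u hu
    rw [hG', mem_filter] at hu
    show L ≤ (D u).card / (4 * N)
    rw [Nat.le_div_iff_mul_le h4N]
    have := (le_max_right (8 * N) (4 * N * L)).trans hu.2
    linarith
  have hsum : ∑ u ∈ G', (N : ℝ) * (1 / 2) ^ (t u) ≤ 1 / 2 := by
    set M := G'.sup t + 1 + L with hM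
    have hmaps : ∀ u ∈ G', t u ∈ Finset.Ico L M := by
      intro u hu
      rw [Finset.mem_Ico]
      refine ⟨htL u hu, ?_⟩
      have := Finset.le_sup (f := t) hu
      omega
    rw [← Finset.sum_fiberwise_of_maps_to hmaps]
    have hfib : ∀ τ ∈ Finset.Ico L M, ∑ u ∈ G'.filter (fun u => t u = τ), (N : ℝ) * (1 / 2) ^ (t u) ≤
        ((N : ℝ) * (K + 1) * (4 * N + 1) * 1) * (((τ : ℝ) + 1) * (1 / 2) ^ τ) := by
      intro τ _
      have h5 : ∑ u ∈ G'.filter (fun u => t u = τ), (N : ℝ) * (1 / 2) ^ (t u) =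
          ((G'.filter (fun u => t u = τ)).card : ℝ) * ((N : ℝ) * (1 / 2) ^ τ) := by
        rw [Finset.sum_congr rfl (g := fun _ => (N : ℝ) * (1 / 2) ^ τ), Finset.sum_const, nsmul_eq_mul]
        intro u hu
        rw [(mem_filter.1 hu).2]
      have h6 : (G'.filter (fun u => t u = τ)).card ≤ K * (4 * N * (τ + 1) + 1) := by
        refine le_trans (card_le_card ?_) (hgr (4 * N * (τ + 1)))
        intro u hu
        rw [mem_filter] at hu ⊢
        refine ⟨(mem_filter.1 hu.1).1, ?_⟩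
        have h7 := Nat.div_add_mod (D u).card (4 * N)
        have h8 := Nat.mod_lt (D u).card h4N
        have h9 : (D u).card / (4 * N) = τ := hu.2
        rw [h9] at h7
        nlinarith
      rw [h5]
      have h10 : ((G'.filter (fun u => t u = τ)).card : ℝ) ≤ (K + 1) * ((4 * N + 1) * (τ + 1)) := by
        have h11 : ((G'.filter (fun u => t u = τ)).card : ℝ) ≤ K * (4 * N * (τ + 1) + 1) := by
          exact_mod_cast h6
        have hK : (0 : ℝ) ≤ K := Nat.cast_nonneg K
        have hNr : (0 : ℝ) ≤ N := Nat.cast_nonneg N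
        have hτ : (0 : ℝ) ≤ τ := Nat.cast_nonneg τ
        have h12 : (4 * (N : ℝ) * (τ + 1) + 1) ≤ (4 * N + 1) * (τ + 1) := by nlinarith
        calc ((G'.filter (fun u => t u = τ)).card : ℝ) ≤ K * (4 * N * (τ + 1) + 1) := h11
          _ ≤ (K + 1) * ((4 * N + 1) * (τ + 1)) := by
            apply mul_le_mul (by linarith) h12 (by positivity) (by positivity)
      calc ((G'.filter (fun u => t u = τ)).card : ℝ) * ((N : ℝ) * (1 / 2) ^ τ)
          ≤ ((K + 1) * ((4 * N + 1) * (τ + 1))) * ((N : ℝ) * (1 / 2) ^ τ) :=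
            mul_le_mul_of_nonneg_right h10 (by positivity)
        _ = _ := by ring
    refine (Finset.sum_le_sum hfib).trans ?_
    rw [← Finset.mul_sum]
    have h13 : L ≤ M := by omega
    have h14 := (sum_geo L M h13).trans hL
    have h15 : (0 : ℝ) < (N : ℝ) * (K + 1) * (4 * N + 1) * 1 := by positivity
    refine (mul_le_mul_of_nonneg_left h14 h15.le).trans (le_of_eq ?_)
    field_simp
  obtain ⟨f, hf1, hf2, hf3⟩ := exists_split_two X N m hN hX F hF G' D
    (fun u hu => hD u (mem_filter.1 hu).1) t h0 h1 hc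
    (fun u _ => Nat.mul_div_le _ _) hsum
  refine ⟨f, hf1, hf2, fun u hu hcu i => ?_⟩
  have h16 := hf3 u (mem_filter.2 ⟨hu, hcu⟩) i
  have h17 : 8 * N ≤ (D u).card := (le_max_left _ _).trans hcu
  have h18 := Nat.div_add_mod (D u).card (4 * N)
  have h19 := Nat.mod_lt (D u).card h4N
  have h20 : (D u).card / (4 * N) ≤ ((D u).filter (fun x => f x = i)).card := h16
  have h21 : 2 ≤ (D u).card / (4 * N) := by
    rw [Nat.le_div_iff_mul_le h4N]
    linarith
  set d := (D u).card / (4 * N) with hd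
  have h22 : (D u).card ≤ 8 * N * d := by nlinarith
  calc (D u).card ≤ 8 * N * d := h22
    _ ≤ _ := Nat.mul_le_mul_left _ h20

end Pool.Agent.AEF
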